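import Pool.Agent.Helper30.UP.St

/-!
# UP module C10 (helper12): the structure theorem

Statement: `Pool.Agent.Helper30.UP.StC10` (helper30).
-/

set_option autoImplicit false

noncomputable section

namespace Pool.Agent.Helper12.UP

open Finset Pool.Agent.Helper30.UP
open scoped Classical

/-- the columns in the annihilator of `W` are few -/
theorem C10_card {c n : ℕ} (s : Fin n → E c) (hs : Function.Injective s)
    (H : Submodule (ZMod 2) (E c)) :
    (univ.filter (fun i => s i ∈ H)).card ≤ Nat.card H := by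
  rw [← card_el]
  apply Finset.card_le_card_of_injOn s
  · intro i hi
    rw [Finset.mem_coe, Finset.mem_filter] at hi
    rw [Finset.mem_coe, mem_el]
    exact hi.2
  · intro i _ j _ hij
    exact hs hij

/-- the sum over the columns in the annihilator -/
theorem C10_sub {c n : ℕ} (s : Fin n → E c) (hs : Function.Injective s)
    (W : Submodule (ZMod 2) (E c)) (x : E c) :
    |∑ i ∈ univ.filter (fun i => s i ∈ perp W), chi x (s i) -
      (if x ∈ W then (Nat.card (perp W) : ℝ) else 0)| ≤ (Nat.card (perp W) : ℝ) - zc s W := by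
  set A : Finset (Fin n) := univ.filter (fun i => s i ∈ perp W) with hA
  set B : Finset (E c) := A.image s with hB
  have hBsub : B ⊆ el (perp W) := by
    intro v hv
    rw [hB, Finset.mem_image] at hv
    obtain ⟨i, hi, rfl⟩ := hv
    rw [hA, Finset.mem_filter] at hi
    rw [mem_el]
    exact hi.2
  have h1 : ∑ i ∈ A, chi x (s i) = ∑ v ∈ B, chi x v := by
    rw [hB, Finset.sum_image]
    intro i _ j _ hij
    exact hs hij
  have h2 : ∑ v ∈ el (perp W), chi x v = if x ∈ W then (Nat.card (perp W) : ℝ) else 0 := by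
    have h3 := sum_el_chi (perp W) x
    rw [perp_perp] at h3
    rw [← h3]
    exact Finset.sum_congr rfl fun v _ => chi_comm x v
  have h3 : ∑ v ∈ el (perp W) \ B, chi x v + ∑ v ∈ B, chi x v = ∑ v ∈ el (perp W), chi x v :=
    Finset.sum_sdiff hBsub
  have h4 : |∑ v ∈ el (perp W) \ B, chi x v| ≤ ((el (perp W) \ B).card : ℝ) := by
    refine (Finset.abs_sum_le_sum_abs _ _).trans ?_
    rw [Finset.sum_congr rfl fun v _ => abs_chi x v, Finset.sum_const, nsmul_eq_mul, mul_one]
  have h5 : ((el (perp W) \ B).card : ℝ) = (Nat.card (perp W) : ℝ) - zc s W := by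
    have h6 : B.card = zc s W := by
      rw [hB, Finset.card_image_of_injective _ hs]
      rfl
    have h7 : (el (perp W) \ B).card + B.card = Nat.card (perp W) := by
      rw [← card_el (perp W)]
      exact Finset.card_sdiff_add_card_eq_card hBsub
    rw [h6] at h7
    have h8 : ((el (perp W) \ B).card : ℝ) + zc s W = Nat.card (perp W) := by exact_mod_cast h7
    linarith
  rw [← h2, ← h3, h1, ← h5]
  have h6 : ∑ v ∈ B, chi x v - (∑ v ∈ el (perp W) \ B, chi x v + ∑ v ∈ B, chi x v) =
      -∑ v ∈ el (perp W) \ B, chi x v := by ring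
  rw [h6, abs_neg]
  exact h4

/-- counting with multiplicities -/
theorem C10_mult {n k : ℕ} (A : Fin k → Fin n → Prop) (hcov : ∀ i, ∃ j, A j i) (f : Fin n → ℝ)
    (hf : ∀ i, |f i| ≤ 1) (κ : ℝ) (hκ : 0 ≤ κ)
    (hA : ∀ j j', j ≠ j' → ((univ.filter (fun i => A j i ∧ A j' i)).card : ℝ) ≤ κ) :
    |∑ i, f i - ∑ j, ∑ i ∈ univ.filter (fun i => A j i), f i| ≤ (k : ℝ) ^ 2 * κ := by
  -- indicators
  let a : Fin k → Fin n → ℝ := fun j i => if A j i then 1 else 0
  have ha2 : ∀ j i, a j i * a j i = a j i := by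
    intro j i
    show (if A j i then (1 : ℝ) else 0) * (if A j i then (1 : ℝ) else 0) =
      if A j i then (1 : ℝ) else 0
    split_ifs <;> norm_num
  have ha0 : ∀ j i, 0 ≤ a j i := by
    intro j i
    show 0 ≤ if A j i then (1 : ℝ) else 0
    split_ifs <;> norm_num
  have hm1 : ∀ i, 1 ≤ ∑ j, a j i := by
    intro i
    obtain ⟨j, hj⟩ := hcov i
    have h1 : a j i = 1 := if_pos hj
    rw [← h1]
    exact Finset.single_le_sum (f := fun j => a j i) (fun l _ => ha0 l i) (Finset.mem_univ j)
  have hsum : ∑ j, ∑ i ∈ univ.filter (fun i => A j i), f i = ∑ i, (∑ j, a j i) * f i := by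
    have h1 : ∀ j, ∑ i ∈ univ.filter (fun i => A j i), f i = ∑ i, a j i * f i := by
      intro j
      rw [Finset.sum_filter]
      apply Finset.sum_congr rfl
      intro i _
      show (if A j i then f i else 0) = (if A j i then (1 : ℝ) else 0) * f i
      split_ifs <;> ring
    rw [Finset.sum_congr rfl fun j _ => h1 j, Finset.sum_comm]
    apply Finset.sum_congr rfl
    intro i _
    rw [Finset.sum_mul]
  have hdiff : ∑ i, f i - ∑ j, ∑ i ∈ univ.filter (fun i => A j i), f i =
      ∑ i, (1 - ∑ j, a j i) * f i := by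
    rw [hsum, ← Finset.sum_sub_distrib]
    apply Finset.sum_congr rfl
    intro i _
    ring
  rw [hdiff]
  have hb : ∀ i, |(1 - ∑ j, a j i) * f i| ≤ ∑ j, ∑ j' ∈ univ.erase j, a j i * a j' i := by
    intro i
    have h1 : |(1 - ∑ j, a j i) * f i| ≤ (∑ j, a j i) - 1 := by
      rw [abs_mul, abs_of_nonpos (by linarith [hm1 i])]
      calc -(1 - ∑ j, a j i) * |f i| ≤ -(1 - ∑ j, a j i) * 1 :=
            mul_le_mul_of_nonneg_left (hf i) (by linarith [hm1 i])
        _ = (∑ j, a j i) - 1 := by ring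
    have h2 : (∑ j, a j i) - 1 ≤ (∑ j, a j i) * (∑ j, a j i) - ∑ j, a j i := by
      nlinarith [hm1 i]
    have h3 : (∑ j, a j i) * (∑ j, a j i) - ∑ j, a j i =
        ∑ j, ∑ j' ∈ univ.erase j, a j i * a j' i := by
      rw [Finset.sum_mul_sum, ← Finset.sum_sub_distrib]
      apply Finset.sum_congr rfl
      intro j _
      rw [← Finset.add_sum_erase univ (fun j' => a j i * a j' i) (Finset.mem_univ j), ha2]
      ring
    linarith
  calc |∑ i, (1 - ∑ j, a j i) * f i| ≤ ∑ i, |(1 - ∑ j, a j i) * f i| :=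
        Finset.abs_sum_le_sum_abs _ _
    _ ≤ ∑ i, ∑ j, ∑ j' ∈ univ.erase j, a j i * a j' i := Finset.sum_le_sum fun i _ => hb i
    _ = ∑ j, ∑ j' ∈ univ.erase j, ∑ i, a j i * a j' i := by
        rw [Finset.sum_comm]
        apply Finset.sum_congr rfl
        intro j _
        rw [Finset.sum_comm]
    _ ≤ ∑ j : Fin k, ∑ j' ∈ (univ : Finset (Fin k)).erase j, κ := by
        apply Finset.sum_le_sum
        intro j _
        apply Finset.sum_le_sum
        intro j' hj'
        refine le_trans (le_of_eq ?_) (hA j j' (Finset.ne_of_mem_erase hj').symm)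
        rw [Finset.card_filter]
        push_cast
        apply Finset.sum_congr rfl
        intro i _
        show (if A j i then (1 : ℝ) else 0) * (if A j' i then (1 : ℝ) else 0) =
          if A j i ∧ A j' i then (1 : ℝ) else 0
        by_cases h1 : A j i <;> by_cases h2 : A j' i <;> simp [h1, h2]
    _ ≤ ∑ j : Fin k, ∑ j' : Fin k, κ := by
        apply Finset.sum_le_sum
        intro j _
        exact Finset.sum_le_sum_of_subset_of_nonneg (Finset.erase_subset _ _) fun _ _ _ => hκ
    _ = (k : ℝ) ^ 2 * κ := by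
        rw [Finset.sum_const, Finset.sum_const, Finset.card_univ, Fintype.card_fin, nsmul_eq_mul,
          nsmul_eq_mul]
        ring

/-- Module C10. -/
theorem hC10 (h5 : StC5) (h6 : StC6) (h8 : StC8) (h9 : StC9) : StC10 := by
  intro K T hK hT
  obtain ⟨δ, κ5, n5, hδ, hκ5, H5⟩ := h5 K T hK hT
  obtain ⟨κ6, hκ6, H6⟩ := h6 K T δ κ5 hK hT hδ hκ5
  obtain ⟨κ8, n8, hκ8, H8⟩ := h8 K T δ κ5 hK hT hδ hκ5
  obtain ⟨n9, H9⟩ := h9 K T δ κ5 hK hT hδ hκ5
  have hK0 : (0 : ℝ) < K := by exact_mod_cast hK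
  refine ⟨(K : ℝ) ^ 2 * κ8 + K * κ6, max n5 (max n8 n9), by positivity, ?_⟩
  intro n hn c D s hyp
  obtain ⟨F, hF⟩ := H5 n ((le_max_left _ _).trans hn) c D s hyp
  obtain ⟨hFK, hFint⟩ := H8 n (((le_max_left _ _).trans (le_max_right _ _)).trans hn) c D s F hyp hF
  have hFcov := H9 n (((le_max_right _ _).trans (le_max_right _ _)).trans hn) c D s F hyp hF
  have hinj : Function.Injective s := hyp.2.2.1.1
  have hnK : n ≤ K * D := hyp.2.1
  have hWF : ∀ j : Fin F.card, ((F.equivFin.symm j : ↥F) : Submodule (ZMod 2) (E c)) ∈ F :=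
    fun j => (F.equivFin.symm j).2
  have hWinj : ∀ j j' : Fin F.card, j ≠ j' →
      ((F.equivFin.symm j : ↥F) : Submodule (ZMod 2) (E c)) ≠ (F.equivFin.symm j' : ↥F) := by
    intro j j' hjj h
    exact hjj (F.equivFin.symm.injective (Subtype.ext h))
  refine ⟨F.card, fun j => (F.equivFin.symm j : ↥F), hFK, ?_, ?_⟩
  · intro j
    obtain ⟨_, h2, _, _⟩ := H6 c n D s _ hyp (hF.1 _ (hWF j))
    have h3 : zc s (F.equivFin.symm j : ↥F) ≤
        Nat.card (perp ((F.equivFin.symm j : ↥F) : Submodule (ZMod 2) (E c))) :=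
      C10_card s hinj _
    have h2' : D ≤ zc s (F.equivFin.symm j : ↥F) := by exact_mod_cast h2
    exact hnK.trans (Nat.mul_le_mul_left K (h2'.trans h3))
  · intro x
    have hkK : (F.card : ℝ) ≤ K := by exact_mod_cast hFK
    -- the first estimate
    have e1 := C10_mult (fun (j : Fin F.card) (i : Fin n) =>
        s i ∈ perp ((F.equivFin.symm j : ↥F) : Submodule (ZMod 2) (E c))) (by
        intro i
        obtain ⟨W, hW, hi⟩ := hFcov i
        refine ⟨F.equivFin ⟨W, hW⟩, ?_⟩
        rw [Equiv.symm_apply_apply]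
        exact hi) (fun i => chi x (s i)) (fun i => (abs_chi x (s i)).le) κ8 hκ8.le (by
        intro j j' hjj
        refine le_trans ?_ (hFint _ (hWF j) _ (hWF j') (hWinj j j' hjj))
        have h1 := C10_card s hinj
          (perp ((F.equivFin.symm j : ↥F) : Submodule (ZMod 2) (E c)) ⊓
            perp ((F.equivFin.symm j' : ↥F) : Submodule (ZMod 2) (E c)))
        simp only [Submodule.mem_inf] at h1
        exact_mod_cast h1)
    -- the second estimate
    have e2 : ∀ j : Fin F.card, |∑ i ∈ univ.filter (fun i =>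
        s i ∈ perp ((F.equivFin.symm j : ↥F) : Submodule (ZMod 2) (E c))), chi x (s i) -
        (if x ∈ ((F.equivFin.symm j : ↥F) : Submodule (ZMod 2) (E c)) then
          (Nat.card (perp ((F.equivFin.symm j : ↥F) : Submodule (ZMod 2) (E c))) : ℝ) else 0)| ≤
        κ6 := by
      intro j
      obtain ⟨h1, _, _, _⟩ := H6 c n D s _ hyp (hF.1 _ (hWF j))
      have h2 := C10_sub s hinj ((F.equivFin.symm j : ↥F) : Submodule (ZMod 2) (E c)) x
      linarith
    have e3 : ∑ j ∈ Jx (fun j : Fin F.card =>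
        ((F.equivFin.symm j : ↥F) : Submodule (ZMod 2) (E c))) x,
        (Nat.card (perp ((F.equivFin.symm j : ↥F) : Submodule (ZMod 2) (E c))) : ℝ) =
        ∑ j : Fin F.card, (if x ∈ ((F.equivFin.symm j : ↥F) : Submodule (ZMod 2) (E c)) then
          (Nat.card (perp ((F.equivFin.symm j : ↥F) : Submodule (ZMod 2) (E c))) : ℝ) else 0) := by
      unfold Jx
      rw [Finset.sum_filter]
    rw [e3]
    have e4 : |∑ j : Fin F.card, ∑ i ∈ univ.filter (fun i =>
        s i ∈ perp ((F.equivFin.symm j : ↥F) : Submodule (ZMod 2) (E c))), chi x (s i) -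
        ∑ j : Fin F.card, (if x ∈ ((F.equivFin.symm j : ↥F) : Submodule (ZMod 2) (E c)) then
          (Nat.card (perp ((F.equivFin.symm j : ↥F) : Submodule (ZMod 2) (E c))) : ℝ) else 0)| ≤
        K * κ6 := by
      rw [← Finset.sum_sub_distrib]
      refine (Finset.abs_sum_le_sum_abs _ _).trans ?_
      calc _ ≤ ∑ j : Fin F.card, κ6 := Finset.sum_le_sum fun j _ => e2 j
        _ = F.card * κ6 := by
            rw [Finset.sum_const, Finset.card_univ, Fintype.card_fin, nsmul_eq_mul]
        _ ≤ K * κ6 := mul_le_mul_of_nonneg_right hkK hκ6.le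
    have e5 : ((F.card : ℝ)) ^ 2 * κ8 ≤ (K : ℝ) ^ 2 * κ8 := by
      apply mul_le_mul_of_nonneg_right _ hκ8.le
      exact pow_le_pow_left₀ (Nat.cast_nonneg _) hkK 2
    have e6 := abs_sub_le (Fh s x) (∑ j : Fin F.card, ∑ i ∈ univ.filter (fun i =>
        s i ∈ perp ((F.equivFin.symm j : ↥F) : Submodule (ZMod 2) (E c))), chi x (s i))
        (∑ j : Fin F.card, (if x ∈ ((F.equivFin.symm j : ↥F) : Submodule (ZMod 2) (E c)) then
          (Nat.card (perp ((F.equivFin.symm j : ↥F) : Submodule (ZMod 2) (E c))) : ℝ) else 0))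
    have e7 : Fh s x = ∑ i, chi x (s i) := rfl
    rw [← e7] at e1
    linarith

end Pool.Agent.Helper12.UP

end
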